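import Pool.Agent.Helper42.SG.GoalsB
import Pool.Agent.Helper29.BL.PS

/-!
Project SG (MP_a41896_nt), part B, packet ELOC (helper77): the local inequality (3.3).
-/

set_option autoImplicit false

namespace Pool.Agent.Helper77.SGB

open WeierstrassCurve Height
open Pool.Agent.Helper29.BL Pool.Agent.Helper92.Ru Pool.Agent.Helper42.SG

/-- `|a + b| ≤ 2 max(|a|, |b|)`, without the factor if `v` is nonarchimedean. -/
theorem add_le_cst {K : Type} [Field K] (v : AbsoluteValue K ℝ) (a b : K) {m : ℝ}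
    (ha : v a ≤ m) (hb : v b ≤ m) : v (a + b) ≤ cst v 2 * m := by
  by_cases hv : IsNonarchimedean v
  · rw [cst_of_nonarch hv, one_mul]
    exact (hv a b).trans (max_le ha hb)
  · rw [cst_of_not_nonarch hv]
    have h1 := v.add_le a b
    linarith

/-- the three symmetric functions in terms of the law `0` -/
theorem three_le {K : Type} [Field K] (v : AbsoluteValue K ℝ) {U T S a b x : K} (h2 : (2 : K) ≠ 0)
    (hU : 2 * U = a) (hT : 2 * T = b + x * a) (hS : 2 * S = x * b) :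
    max (v U) (max (v T) (v S)) ≤ Mv v (2⁻¹) * cst v 2 * max (v a) (v b) * Mv v x := by
  have hc : (1 : ℝ) ≤ cst v 2 := one_le_cst v (by norm_num)
  have hx1 : 1 ≤ Mv v x := one_le_Mv v x
  have hx2 : v x ≤ Mv v x := le_max_right _ _
  have ha : v a ≤ max (v a) (v b) := le_max_left _ _
  have hb : v b ≤ max (v a) (v b) := le_max_right _ _
  have hm : 0 ≤ max (v a) (v b) := (v.nonneg a).trans ha
  have h2i : v (2⁻¹ : K) ≤ Mv v (2⁻¹) := le_max_right _ _
  have hxm : v x * max (v a) (v b) ≤ max (v a) (v b) * Mv v x := by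
    rw [mul_comm]
    exact mul_le_mul_of_nonneg_left hx2 hm
  have h1m : max (v a) (v b) ≤ max (v a) (v b) * Mv v x := le_mul_of_one_le_right hm hx1
  have hmx : 0 ≤ max (v a) (v b) * Mv v x := hm.trans h1m
  have hcm : max (v a) (v b) * Mv v x ≤ cst v 2 * (max (v a) (v b) * Mv v x) :=
    le_mul_of_one_le_left hmx hc
  have key : ∀ W : K, v (2 * W) ≤ cst v 2 * (max (v a) (v b) * Mv v x) →
      v W ≤ Mv v (2⁻¹) * cst v 2 * max (v a) (v b) * Mv v x := by
    intro W hW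
    have h3 : W = 2⁻¹ * (2 * W) := by rw [← mul_assoc, inv_mul_cancel₀ h2, one_mul]
    have h4 : v W = v (2⁻¹ : K) * v (2 * W) := by
      conv_lhs => rw [h3]
      rw [map_mul]
    rw [h4]
    calc v (2⁻¹ : K) * v (2 * W) ≤ Mv v (2⁻¹) * (cst v 2 * (max (v a) (v b) * Mv v x)) :=
          mul_le_mul h2i hW (v.nonneg _) (zero_le_one.trans (one_le_Mv v _))
      _ = Mv v (2⁻¹) * cst v 2 * max (v a) (v b) * Mv v x := by ring
  refine max_le (key U ?_) (max_le (key T ?_) (key S ?_))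
  · rw [hU]
    exact ha.trans (h1m.trans hcm)
  · rw [hT]
    refine add_le_cst v b (x * a) (hb.trans h1m) ?_
    rw [map_mul]
    exact (mul_le_mul_of_nonneg_left ha (v.nonneg x)).trans hxm
  · rw [hS, map_mul]
    exact ((mul_le_mul_of_nonneg_left hb (v.nonneg x)).trans hxm).trans hcm

/-- **ELOC** -/
theorem eloc (h0 : ELAW) (h1 : EPHI) (h2 : EUTS) : ELOC := by
  intro K _ _ _ W _
  obtain ⟨B1, hB1, hφ⟩ := h1 K W
  obtain ⟨B2, hB2, hu⟩ := h2 K W
  have two_ne : (2 : K) ≠ 0 := two_ne_zero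
  refine ⟨fun v => B1 v ^ 2 * (B2 v * (Mv v (2⁻¹) * cst v 2)), ⟨?_, ?_⟩, ?_⟩
  · intro v
    have a1 := hB1.one_le v
    have a2 := hB2.one_le v
    have a3 := one_le_Mv v (2⁻¹ : K)
    have a4 : (1 : ℝ) ≤ cst v 2 := one_le_cst v (by norm_num)
    exact one_le_mul_of_one_le_of_one_le (one_le_pow₀ a1)
      (one_le_mul_of_one_le_of_one_le a2 (one_le_mul_of_one_le_of_one_le a3 a4))
  · have e : (fun v : AbsoluteValue K ℝ => Real.log (B1 v ^ 2 * (B2 v * (Mv v (2⁻¹) * cst v 2))))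
        = fun v => 2 * Real.log (B1 v) + (Real.log (B2 v) + (Real.log (Mv v (2⁻¹))
          + Real.log (cst v 2))) := by
      funext v
      have a1 : B1 v ≠ 0 := (zero_lt_one.trans_le (hB1.one_le v)).ne'
      have a2 : B2 v ≠ 0 := (zero_lt_one.trans_le (hB2.one_le v)).ne'
      have a3 : Mv v (2⁻¹ : K) ≠ 0 := (Mv_pos v _).ne'
      have a4 : cst v 2 ≠ 0 := (cst_pos v (by norm_num)).ne'
      rw [Real.log_mul (pow_ne_zero 2 a1) (mul_ne_zero a2 (mul_ne_zero a3 a4)),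
        Real.log_mul a2 (mul_ne_zero a3 a4), Real.log_mul a3 a4, Real.log_pow]
      norm_num
    rw [e]
    exact (hB1.fin.const_mul 2).add (hB2.fin.add ((FS_log_Mv _).add (FS_log_cst 2)))
  · intro v P Q e hP hQ hPQ
    obtain ⟨-, -, -, k1, k2⟩ := h0 K W P Q e two_ne hP hQ hPQ
    have p1 := hφ v e (xc P)
    have p2 := hu v (xc Q) (Ph W e (xc P)).1 (Ph W e (xc P)).2
    set t := (Ph W e (xc P)).1 with ht
    set z := (Ph W e (xc P)).2 with hz
    set L := law W e false (xc P) (xc Q) (ps P * ps Q) with hL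
    set x' := xc ((2 ^ e) • P + Q) with hx'
    have b1 : (1 : ℝ) ≤ B1 v := hB1.one_le v
    have b2 : (1 : ℝ) ≤ B2 v := hB2.one_le v
    have b3 : (1 : ℝ) ≤ Mv v (2⁻¹) * cst v 2 :=
      one_le_mul_of_one_le_of_one_le (one_le_Mv v _) (one_le_cst v (by norm_num))
    have hL1 : L.1 = 2 * Uh (xc Q) t z := rfl
    have hL2 : L.2 = Th W (xc Q) t z + ps P * ps Q * Rr W e (xc P) := rfl
    have hM1 : (law W e true (xc P) (xc Q) (ps P * ps Q)).1
        = Th W (xc Q) t z - ps P * ps Q * Rr W e (xc P) := rfl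
    have hM2 : (law W e true (xc P) (xc Q) (ps P * ps Q)).2 = 2 * Sh W (xc Q) t z := rfl
    rw [hM1] at k1
    rw [hM2] at k2
    have q := three_le v (U := Uh (xc Q) t z) (T := Th W (xc Q) t z) (S := Sh W (xc Q) t z)
      (a := L.1) (b := L.2) (x := x') two_ne hL1.symm (by rw [← k1, hL2]; ring) k2
    have n1 : 0 ≤ max (v L.1) (v L.2) := (v.nonneg _).trans (le_max_left _ _)
    have n2 : 0 ≤ Mv v x' := zero_le_one.trans (one_le_Mv v _)
    have n3 : 0 ≤ max (v t) (v z) := (v.nonneg _).trans (le_max_left _ _)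
    have n4 : 0 ≤ Mv v (xc P) := zero_le_one.trans (one_le_Mv v _)
    have r1 : Mv v (xc P) ^ (2 * 4 ^ e) ≤ B1 v ^ (2 * 4 ^ e) * max (v t) (v z) ^ 2 := by
      rw [mul_comm 2, pow_mul, pow_mul, ← mul_pow]
      exact pow_le_pow_left₀ (pow_nonneg n4 _) p1 2
    have hpos : 0 < 4 ^ e := by positivity
    calc Mv v (xc P) ^ (2 * 4 ^ e) * Mv v (xc Q) ^ 2
        ≤ B1 v ^ (2 * 4 ^ e) * max (v t) (v z) ^ 2 * Mv v (xc Q) ^ 2 :=
          mul_le_mul_of_nonneg_right r1 (sq_nonneg _)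
      _ = B1 v ^ (2 * 4 ^ e) * (max (v t) (v z) ^ 2 * Mv v (xc Q) ^ 2) := by ring
      _ ≤ B1 v ^ (2 * 4 ^ e) * (B2 v * (Mv v (2⁻¹) * cst v 2 * max (v L.1) (v L.2) * Mv v x')) := by
          refine mul_le_mul_of_nonneg_left ?_ (pow_nonneg (zero_le_one.trans b1) _)
          exact p2.trans (mul_le_mul_of_nonneg_left q (zero_le_one.trans b2))
      _ = (B1 v ^ 2) ^ (4 ^ e) * (B2 v * (Mv v (2⁻¹) * cst v 2)) *
            (max (v L.1) (v L.2) * Mv v x') := by
          rw [← pow_mul]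
          ring
      _ ≤ (B1 v ^ 2) ^ (4 ^ e) * (B2 v * (Mv v (2⁻¹) * cst v 2)) ^ (4 ^ e) *
            (max (v L.1) (v L.2) * Mv v x') := by
          refine mul_le_mul_of_nonneg_right ?_ (mul_nonneg n1 n2)
          refine mul_le_mul_of_nonneg_left ?_ (by positivity)
          exact le_self_pow₀ (one_le_mul_of_one_le_of_one_le b2 b3) hpos.ne'
      _ = (B1 v ^ 2 * (B2 v * (Mv v (2⁻¹) * cst v 2))) ^ (4 ^ e) *
            max (v L.1) (v L.2) * Mv v x' := by
          rw [mul_pow (B1 v ^ 2)]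
          ring

end Pool.Agent.Helper77.SGB
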